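import Mathlib
import Pool.Agent.H381R4.BP.Stubs
import Pool.Agent.H804CM.PCM

set_option autoImplicit false
open MeasureTheory Matrix Filter Topology
open scoped ENNReal BigOperators Pointwise

namespace Pool.Agent.H381BP
open Pool.Agent.H381CM

theorem IDN_cont_lf (m d : ℕ) :
    Continuous fun z : (V d × V d × V d) × E m => lf m z.1.1 z.1.2.1 z.1.2.2 z.2 := by
  unfold lf
  refine continuous_finsetSum _ fun i _ => ?_
  have h1 : Continuous fun z : (V d × V d × V d) × E m => z.2 i := by fun_prop
  refine h1.smul ?_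
  unfold W3
  split_ifs <;> fun_prop

/-- the coefficients -/
theorem IDN_coef (m d : ℕ) (h1 : 1 ≤ m) (h3 : m ≤ 3) (v : E m) : ∃ a b c : ℝ,
    (∀ x y z : V d, lf m x y z v = a • x + b • y + c • z) ∧
    Real.sqrt (a ^ 2 + b ^ 2 + c ^ 2) = ‖v‖ := by
  interval_cases m
  · refine ⟨v 0, 0, 0, ?_, ?_⟩
    · intro x y z
      unfold lf
      rw [Fin.sum_univ_one]
      simp [W3]
    · rw [EuclideanSpace.norm_eq, Fin.sum_univ_one]
      congr 1
      simp [sq_abs]
  · refine ⟨v 0, v 1, 0, ?_, ?_⟩
    · intro x y z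
      unfold lf
      rw [Fin.sum_univ_two]
      simp [W3]
    · rw [EuclideanSpace.norm_eq, Fin.sum_univ_two]
      congr 1
      simp [sq_abs]
  · refine ⟨v 0, v 1, v 2, ?_, ?_⟩
    · intro x y z
      unfold lf
      rw [Fin.sum_univ_three]
      simp [W3]
    · rw [EuclideanSpace.norm_eq, Fin.sum_univ_three]
      congr 1
      simp [sq_abs]

theorem T_IDN : S_LMA → S_RTV → S_IDN := by
  intro hLMA hRTV d m hm1 hm3 ι _ u p hsp hp L hL
  have hGGm : Measurable fun q : V d × V d × V d => ENNReal.ofReal (GG u p q.1 q.2.1 q.2.2) :=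
    (PCM_cont_GG u p).measurable.ennreal_ofReal
  have hind : Measurable (L.indicator (1 : V d → ℝ≥0∞)) := measurable_one.indicator hL
  have hcl := IDN_cont_lf m d
  -- step 1
  have e1 : ∀ q : V d × V d × V d, ENNReal.ofReal (GG u p q.1 q.2.1 q.2.2) *
      volume {v : E m | lf m q.1 q.2.1 q.2.2 v ∈ L} =
      ∫⁻ v : E m, ENNReal.ofReal (GG u p q.1 q.2.1 q.2.2) *
        L.indicator 1 (lf m q.1 q.2.1 q.2.2 v) := by
    intro q
    have hc : Continuous fun v : E m => lf m q.1 q.2.1 q.2.2 v :=
      hcl.comp (by fun_prop : Continuous fun v : E m => (q, v))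
    have hs : MeasurableSet {v : E m | lf m q.1 q.2.1 q.2.2 v ∈ L} := hc.measurable hL
    have hm : Measurable fun v : E m => L.indicator (1 : V d → ℝ≥0∞) (lf m q.1 q.2.1 q.2.2 v) :=
      hind.comp hc.measurable
    have h3 := lintegral_const_mul (μ := (volume : Measure (E m)))
      (ENNReal.ofReal (GG u p q.1 q.2.1 q.2.2)) hm
    rw [h3]
    congr 1
    rw [← lintegral_indicator_one hs]
    rfl
  rw [lintegral_congr e1, lintegral_lintegral_swap]
  swap
  · refine Measurable.aemeasurable ?_
    exact (hGGm.comp measurable_fst).mul (hind.comp hcl.measurable)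
  -- step 2
  have hggm : Measurable fun x : V d => ENNReal.ofReal (gg u p x) := by
    have h1 : Measurable fun x : V d => ∫⁻ q : V d × V d, ENNReal.ofReal (GG u p x q.1 q.2) :=
      hGGm.lintegral_prod_right'
    have h2 : (fun x : V d => ∫⁻ q : V d × V d, ENNReal.ofReal (GG u p x q.1 q.2)) =
        fun x : V d => ENNReal.ofReal (gg u p x) := funext fun x => hLMA d ι u p hsp hp x
    rw [h2] at h1
    exact h1
  have e2 : ∀ v : E m, (∫⁻ q : V d × V d × V d, ENNReal.ofReal (GG u p q.1 q.2.1 q.2.2) *
        L.indicator 1 (lf m q.1 q.2.1 q.2.2 v)) =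
      ∫⁻ x : V d, ENNReal.ofReal (gg u p x) * L.indicator 1 (‖v‖ • x) := by
    intro v
    obtain ⟨a, b, c, h1, h2⟩ := IDN_coef m d hm1 hm3 v
    simp_rw [h1]
    rw [hRTV d ι u p L hL a b c, h2]
    have hc2 : Continuous fun q : V d × V d × V d => ‖v‖ • q.1 := by fun_prop
    have hm2 : Measurable fun q : V d × V d × V d => ENNReal.ofReal (GG u p q.1 q.2.1 q.2.2) *
        L.indicator (1 : V d → ℝ≥0∞) (‖v‖ • q.1) := hGGm.mul (hind.comp hc2.measurable)
    have h3 := lintegral_prod (μ := (volume : Measure (V d)))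
      (ν := (volume : Measure (V d × V d))) _ hm2.aemeasurable
    rw [← Measure.volume_eq_prod] at h3
    refine h3.trans ?_
    refine lintegral_congr fun x => ?_
    have hm3 : Measurable fun y : V d × V d => ENNReal.ofReal (GG u p x y.1 y.2) := by
      have hcc : Continuous fun y : V d × V d => GG u p x y.1 y.2 := by
        have h7 : Continuous fun y : V d × V d => ((x, y) : V d × V d × V d) := by fun_prop
        have h8 := (PCM_cont_GG u p).comp h7
        exact h8
      exact hcc.measurable.ennreal_ofReal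
    have h4 := lintegral_mul_const (μ := (volume : Measure (V d × V d)))
      (L.indicator (1 : V d → ℝ≥0∞) (‖v‖ • x)) hm3
    rw [hLMA d ι u p hsp hp x] at h4
    exact h4
  rw [lintegral_congr e2, lintegral_lintegral_swap]
  swap
  · refine Measurable.aemeasurable ?_
    refine (hggm.comp measurable_snd).mul (hind.comp ?_)
    exact (by fun_prop : Continuous fun z : E m × V d => ‖z.1‖ • z.2).measurable
  refine lintegral_congr fun x => ?_
  have hc : Continuous fun v : E m => ‖v‖ • x := by fun_prop
  have hm4 : Measurable fun v : E m => L.indicator (1 : V d → ℝ≥0∞) (‖v‖ • x) :=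
    hind.comp hc.measurable
  have h5 := lintegral_const_mul (μ := (volume : Measure (E m))) (ENNReal.ofReal (gg u p x)) hm4
  rw [h5]
  congr 1
  unfold hh
  have hs : MeasurableSet {v : E m | ‖v‖ • x ∈ L} := hc.measurable hL
  rw [← lintegral_indicator_one hs]
  rfl

end Pool.Agent.H381BP
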